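import Pool.Agent.Run7.h204.HypDefs

/-!
# MP_336050_an: commuting real matrix tuples with every non-zero vector hypercyclic

For `n ≥ 3` no `n`-tuple of pairwise commuting real `n × n` matrices has all its non-zero vectors
hypercyclic: commuting matrices have a common complex eigenvector, whose real and imaginary parts
span a common invariant real subspace of dimension at most two.
-/

namespace Pool.Agent.Results.MP_336050_an.NoMinimalTuple

open Matrix Run7.h204.Hyp

/-- A finite family of commuting endomorphisms of a non-zero finite dimensional complex space has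
a common eigenvector. -/
theorem exists_common_eigenvector {V : Type*} [AddCommGroup V] [Module ℂ V]
    [FiniteDimensional ℂ V] [Nontrivial V] {m : ℕ} (f : Fin m → Module.End ℂ V)
    (hc : ∀ i j, f i * f j = f j * f i) (s : Finset (Fin m)) :
    ∃ v : V, v ≠ 0 ∧ ∃ χ : Fin m → ℂ, ∀ i ∈ s, f i v = χ i • v := by
  classical
  induction s using Finset.induction_on with
  | empty =>
    obtain ⟨v, hv⟩ := exists_ne (0 : V)
    exact ⟨v, hv, 0, by simp⟩
  | insert j s hj ih =>
    obtain ⟨v, hv, χ, hχ⟩ := ih
    -- the joint eigenspace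
    let E : Submodule ℂ V :=
      { carrier := {w | ∀ i ∈ s, f i w = χ i • w}
        add_mem' := by
          intro a b ha hb i hi
          rw [map_add, ha i hi, hb i hi, smul_add]
        zero_mem' := by intro i hi; simp
        smul_mem' := by
          intro c a ha i hi
          rw [map_smul, ha i hi, smul_comm] }
    have hE : ∀ w ∈ E, f j w ∈ E := by
      intro w hw i hi
      have h1 : f i (f j w) = f j (f i w) := by
        have := congrArg (fun g : Module.End ℂ V => g w) (hc i j)
        simpa using this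
      rw [h1, hw i hi, map_smul]
    haveI : Nontrivial E := ⟨⟨⟨v, hχ⟩, 0, fun h => hv (by simpa using congrArg Subtype.val h)⟩⟩
    obtain ⟨μ, hμ⟩ := Module.End.exists_eigenvalue ((f j).restrict hE)
    obtain ⟨w, hw⟩ := hμ.exists_hasEigenvector
    refine ⟨w.1, fun h => hw.2 (Subtype.ext h), Function.update χ j μ, ?_⟩
    intro i hi
    rcases Finset.mem_insert.1 hi with rfl | hi'
    · have h2 := hw.apply_eq_smul
      have h3 := congrArg Subtype.val h2
      simpa using h3
    · have hne : i ≠ j := fun h => hj (h ▸ hi')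
      rw [Function.update_of_ne hne]
      exact w.2 i hi'

/-- **Answer to Q1.** For every `n ≥ 3`, every `n`-tuple of pairwise commuting real `n × n`
matrices has a non-zero vector whose orbit is not dense. -/
theorem result (n : ℕ) (hn : 3 ≤ n) (A : Fin n → Matrix (Fin n) (Fin n) ℝ)
    (hA : ∀ i j, A i * A j = A j * A i) :
    ∃ x : Fin n → ℝ, x ≠ 0 ∧ ¬ Dense (Orb A x) := by
  classical
  haveI : Nonempty (Fin n) := ⟨⟨0, by omega⟩⟩
  obtain ⟨v, hv, χ, hχ⟩ := exists_common_eigenvector (V := Fin n → ℂ)
    (fun i => ((A i).map ((↑) : ℝ → ℂ)).mulVecLin)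
    (by
      intro i j
      apply LinearMap.ext
      intro w
      have h1 : (A i).map ((↑) : ℝ → ℂ) * (A j).map ((↑) : ℝ → ℂ)
          = (A j).map ((↑) : ℝ → ℂ) * (A i).map ((↑) : ℝ → ℂ) := by
        have h2 : ∀ B C : Matrix (Fin n) (Fin n) ℝ,
            B.map ((↑) : ℝ → ℂ) * C.map ((↑) : ℝ → ℂ) = (B * C).map ((↑) : ℝ → ℂ) := by
          intro B C
          exact (Matrix.map_mul (f := Complex.ofRealHom) (L := B) (M := C)).symm
        rw [h2, h2, hA]
      simp only [Module.End.mul_apply, Matrix.mulVecLin_apply, Matrix.mulVec_mulVec, h1])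
    Finset.univ
  set a : Fin n → ℝ := fun i => (v i).re with ha
  set b : Fin n → ℝ := fun i => (v i).im with hb
  have hre : ∀ (B : Matrix (Fin n) (Fin n) ℝ) (w : Fin n → ℂ) (i : Fin n),
      ((B.map ((↑) : ℝ → ℂ)).mulVec w i).re = B.mulVec (fun j => (w j).re) i := by
    intro B w i
    simp [Matrix.mulVec, dotProduct, Complex.re_sum]
  have him : ∀ (B : Matrix (Fin n) (Fin n) ℝ) (w : Fin n → ℂ) (i : Fin n),
      ((B.map ((↑) : ℝ → ℂ)).mulVec w i).im = B.mulVec (fun j => (w j).im) i := by
    intro B w i
    simp [Matrix.mulVec, dotProduct, Complex.im_sum]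
  have hAa : ∀ i, (A i).mulVec a = (χ i).re • a - (χ i).im • b := by
    intro i
    ext k
    have h1 := congrFun (hχ i (Finset.mem_univ i)) k
    have h2 := congrArg Complex.re h1
    rw [Matrix.mulVecLin_apply, hre] at h2
    simpa using h2
  have hAb : ∀ i, (A i).mulVec b = (χ i).re • b + (χ i).im • a := by
    intro i
    ext k
    have h1 := congrFun (hχ i (Finset.mem_univ i)) k
    have h2 := congrArg Complex.im h1
    rw [Matrix.mulVecLin_apply, him] at h2
    simpa using h2
  let W : Submodule ℝ (Fin n → ℝ) := Submodule.span ℝ {a, b}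
  have haW : a ∈ W := Submodule.subset_span (by simp)
  have hbW : b ∈ W := Submodule.subset_span (by simp)
  have hW : ∀ i, ∀ w ∈ W, (A i).mulVec w ∈ W := by
    intro i w hw
    induction hw using Submodule.span_induction with
    | mem x hx =>
      rcases hx with rfl | hx
      · rw [hAa i]
        exact W.sub_mem (W.smul_mem _ haW) (W.smul_mem _ hbW)
      · rw [Set.mem_singleton_iff.1 hx, hAb i]
        exact W.add_mem (W.smul_mem _ hbW) (W.smul_mem _ haW)
    | zero => rw [Matrix.mulVec_zero]; exact W.zero_mem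
    | add x y _ _ hx hy => rw [Matrix.mulVec_add]; exact W.add_mem hx hy
    | smul c x _ hx => rw [Matrix.mulVec_smul]; exact W.smul_mem _ hx
  have hWpow : ∀ i (k : ℕ), ∀ w ∈ W, (A i ^ k).mulVec w ∈ W := by
    intro i k
    induction k with
    | zero => intro w hw; simpa using hw
    | succ k ih =>
      intro w hw
      rw [pow_succ', ← Matrix.mulVec_mulVec]
      exact hW i _ (ih w hw)
  have hWlist : ∀ (l : List (Matrix (Fin n) (Fin n) ℝ)),
      (∀ B ∈ l, ∀ w ∈ W, B.mulVec w ∈ W) → ∀ w ∈ W, l.prod.mulVec w ∈ W := by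
    intro l
    induction l with
    | nil => intro _ w hw; simpa using hw
    | cons B l ih =>
      intro h w hw
      rw [List.prod_cons, ← Matrix.mulVec_mulVec]
      exact h B (by simp) _ (ih (fun C hC => h C (by simp [hC])) w hw)
  have hOrb : ∀ x ∈ W, Orb A x ⊆ (W : Set (Fin n → ℝ)) := by
    rintro x hx y ⟨k, rfl⟩
    refine hWlist _ ?_ x hx
    intro B hB
    obtain ⟨i, rfl⟩ := (List.mem_ofFn' _ _).1 hB
    exact hWpow i (k i)
  have hWtop : W ≠ ⊤ := by
    intro h
    have h1 : Module.finrank ℝ W ≤ 2 := by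
      have h2 := finrank_span_finset_le_card (R := ℝ) (M := Fin n → ℝ) ({a, b} : Finset _)
      have h3 : ({a, b} : Finset (Fin n → ℝ)).card ≤ 2 := Finset.card_le_two
      have h4 : W = Submodule.span ℝ (({a, b} : Finset (Fin n → ℝ)) : Set (Fin n → ℝ)) := by
        simp [W]
      rw [h4]
      exact h2.trans h3
    rw [h, finrank_top, Module.finrank_fin_fun] at h1
    omega
  have hnd : ∀ x ∈ W, ¬ Dense (Orb A x) := by
    intro x hx hd
    apply hWtop
    have h1 : Dense (W : Set (Fin n → ℝ)) := hd.mono (hOrb x hx)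
    have h2 : IsClosed (W : Set (Fin n → ℝ)) := Submodule.closed_of_finiteDimensional W
    have h3 : (W : Set (Fin n → ℝ)) = Set.univ := by
      rw [← h2.closure_eq]; exact h1.closure_eq
    exact SetLike.coe_injective (by rw [h3]; rfl)
  by_cases h0 : a = 0
  · refine ⟨b, ?_, hnd b hbW⟩
    intro hb0
    apply hv
    ext i
    apply Complex.ext
    · simpa [ha] using congrFun h0 i
    · simpa [hb] using congrFun hb0 i
  · exact ⟨a, h0, hnd a haW⟩

end Pool.Agent.Results.MP_336050_an.NoMinimalTuple
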